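import Pool.Agent.N809.DA.Final
import Pool.Agent.Results.MP_d73f62_nt.SquareRoots

/-!
# D'Arcais polynomials do not vanish at nonzero integer points of the imaginary axis

This settles question Q2 of the problem: `P_n (i t) ≠ 0` for every `n` and every nonzero integer `t`.

Three ingredients: for the primes `p = 11, 19, 43, 47` a zero at an integer `t` forces `p ∣ t`
(a finite computation in the field with `p ^ 2` elements together with a periodicity modulo `p`), the
multiples of `18` are the only integers not excluded by the file `SquareRoots`, and a saddle point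
argument, uniform in `n`, excludes all real `t` with `|t| ≥ 7600000`.
-/

set_option autoImplicit false

namespace Pool.Agent.Results.MP_d73f62_nt.IntegerPoints

open Polynomial

/-- The D'Arcais polynomials: `P 0 = 1` and
`P (n + 1) = x / (n + 1) * ∑_{k = 0}^{n} σ(k + 1) P (n - k)`. -/
noncomputable def P : ℕ → ℚ[X]
  | 0 => 1
  | n + 1 => C (1 / ((n : ℚ) + 1)) * X * ∑ k : Fin (n + 1),
      C (ArithmeticFunction.sigma 1 ((k : ℕ) + 1) : ℚ) * P (n - k)

lemma P_eq (n : ℕ) : P n = SquareRoots.P n := by
  induction n using Nat.strong_induction_on with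
  | _ n ih =>
    cases n with
    | zero => rw [P, SquareRoots.P]
    | succ n =>
      rw [P, SquareRoots.P]
      congr 1
      apply Finset.sum_congr rfl
      intro k _
      rw [ih (n - k) (by omega)]

lemma aeval_P (x : ℂ) (n : ℕ) : aeval x (P n) = Pool.Agent.N809.DA.pv x n := by
  induction n using Nat.strong_induction_on with
  | _ n ih =>
    cases n with
    | zero => rw [P, Pool.Agent.N809.DA.pv_zero, map_one]
    | succ n =>
      rw [P, Pool.Agent.N809.DA.pv]
      simp only [map_mul, map_sum, aeval_C, aeval_X, map_div₀, map_one, map_add, map_natCast]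
      have h : ∀ k : Fin (n + 1), aeval x (P (n - k)) = Pool.Agent.N809.DA.pv x (n - k) :=
        fun k => ih (n - k) (by omega)
      simp only [h]
      ring

/-- `P_n (i t) ≠ 0` for every `n` and every nonzero integer `t`. -/
theorem result : ∀ (n : ℕ) (t : ℤ), t ≠ 0 → aeval (Complex.I * (t : ℂ)) (P n) ≠ 0 := by
  intro n t ht
  by_cases h18 : (18 : ℤ) ∣ t
  · rw [aeval_P]
    exact Pool.Agent.N809.DA.pv_ne_zero_int ht h18 n
  · rw [P_eq]
    exact SquareRoots.result.2 n t h18

end Pool.Agent.Results.MP_d73f62_nt.IntegerPoints
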